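import Pool.Agent.R130.Theon.Univ

/-!
# MP_1d1228_co: for which sets of levels is weak compatibility strictly weaker

For every atomless standard Borel probability space `(X, μ)` and every set `B` of positive
integers: there are a universal theory `T` in a finite relational language and a limit object `φ`
of `T` that is weakly `(ℕ₊ ∖ B)`-compatible but not `(ℕ₊ ∖ B)`-compatible if and only if
`1 ∈ B` and `B` is not the set of all positive integers.
-/

open MeasureTheory ProbabilityTheory

namespace Pool.Agent.Results.MP_1d1228_co.WhichSets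

open Pool.Agent.R130.Theon

theorem result (X : Type) [MeasurableSpace X] [StandardBorelSpace X] (μ : Measure X)
    [IsProbabilityMeasure μ] [NullSingletonClass μ] (B : Set ℕ+) :
    (∃ (L : FirstOrder.Language.{0, 0}) (_ : L.IsRelational) (_ : Finite (Σ n, L.Relations n))
      (T : L.Theory) (_ : T.IsUniversal) (φ : Measure (Str L)),
      WeaklyCompatible T μ B φ ∧ ¬ Compatible T μ Bᶜ φ) ↔ (1 ∈ B ∧ B ≠ Set.univ) := by
  constructor
  · rintro ⟨L, _, _, T, _, φ, ⟨N, hN, rfl, hind⟩, hnot⟩
    refine ⟨?_, ?_⟩
    · by_contra h1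
      exact hnot (compat_of_weak μ T B h1 N hN hind)
    · rintro rfl
      exact hnot (compat_of_weak_univ μ T N hN hind)
  · rintro ⟨h1, h2⟩
    obtain ⟨m, φ, hw, hn⟩ := exists_weak_not_compat μ B h1 h2
    exact ⟨Lm m, inferInstance, inferInstance, ∅, ⟨fun _ hx => absurd hx (Set.notMem_empty _)⟩, φ, hw, hn⟩

end Pool.Agent.Results.MP_1d1228_co.WhichSets
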